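import Pool.Agent.Helper76.TC.Goals

/-!
# Project TC (MP_ccd65d_gt), packet GR: the group of a component of a level set
-/

set_option autoImplicit false

open Set Topology

namespace Pool.Agent.Helper8.TC.GR

open Pool.Agent.Helper76.TC
open Pool.Agent.Helper50.CT (rv Cov Sh)

theorem translate {n : ℕ} {X T : Type} [MetricSpace X] [MetricSpace T]
    [AddAction (Fin n → ℤ) X] {π : X → T} (h : Cov n X T π) (p : X) (P : ℝ → Prop) {x y : X}
    (k : Fin n → ℤ) (hxy : JoinedIn (lv π p P) x y) :
    JoinedIn (lv π p P) (k +ᵥ x) (k +ᵥ y) := by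
  have hc : Continuous fun z : X => k +ᵥ z := (Isometry.of_dist_eq (h.isom k)).continuous
  obtain ⟨γ, hγ⟩ := hxy
  refine ⟨γ.map hc, fun t => ?_⟩
  have h1 := hγ t
  simp only [lv, mem_setOf_eq] at h1 ⊢
  simp only [Path.map_coe, Function.comp_apply, h.inv]
  exact h1

theorem t : S_GR := by
  intro n X T _ _ _ π h p P
  refine ⟨fun x y k hxy => translate h p P k hxy, ?_⟩
  intro y hy
  refine ⟨{ carrier := {k | JoinedIn (lv π p P) y (k +ᵥ y)}
            zero_mem' := ?_
            add_mem' := ?_
            neg_mem' := ?_ }, fun k => Iff.rfl⟩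
  · intro k k' hk hk'
    simp only [mem_setOf_eq] at hk hk' ⊢
    have h1 := translate h p P k hk'
    rw [← add_vadd] at h1
    exact hk.trans h1
  · simp only [mem_setOf_eq, zero_vadd]
    exact JoinedIn.refl hy
  · intro k hk
    simp only [mem_setOf_eq] at hk ⊢
    have h1 := translate h p P (-k) hk
    rw [← add_vadd, neg_add_cancel, zero_vadd] at h1
    exact h1.symm

end Pool.Agent.Helper8.TC.GR
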